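import Pool.Agent.Helper26.HW.Stmts
import Pool.Agent.Helper40.HV.DIP

/-! # Row DIE -/

set_option autoImplicit false

namespace Pool.Agent.Helper90.HW

open MeasureTheory Filter Topology Pool.Agent.Helper95 Pool.Agent.Helper95.PW
  Pool.Agent.Helper95.LN Pool.Agent.Helper95.CF
open Pool.Agent.Helper95.HV Pool.Agent.Helper26.HW Pool.Agent.Helper40.HV
open Pool.Agent.Helper84.LN (eid_cd)
open Pool.Agent.Helper64.HS (nr_tri nr_comm nr_nonneg)

theorem die_iint (h1 : ST_PHA) (h2 : ST_PHB) {b : ℝ} (hb : 0 < b) (v x u y : R3) :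
    Integrable (fun w => ∑ m, pd m (Pv b v x) w * pd m (Pv b u y) w) := by
  obtain ⟨A, -, hA⟩ := Pv_dec h1 h2 hb v x
  obtain ⟨B, -, hB⟩ := Pv_dec h1 h2 hb u y
  exact integrable_finsetSum _ fun m _ => dip_int (eid_cd m (Pv_cd h1 hb v x)).continuous
    (eid_cd m (Pv_cd h1 hb u y)).continuous (hA m) (hB m)

theorem die_pos (h1 : ST_PHA) (h2 : ST_PHB) {b : ℝ} (hb : 0 < b) {n : ℕ} (a x : Fin n → R3) :
    0 ≤ ∑ k, ∑ l, Iv b (a k) (x k) (a l) (x l) := by
  have h0 : 0 ≤ ∫ w, ∑ m, (∑ k, pd m (Pv b (a k) (x k)) w) ^ 2 :=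
    integral_nonneg fun w => Finset.sum_nonneg fun m _ => sq_nonneg _
  have e : ∫ w, ∑ m, (∑ k, pd m (Pv b (a k) (x k)) w) ^ 2 =
      ∑ k, ∑ l, Iv b (a k) (x k) (a l) (x l) := by
    have e1 : ∀ w, ∑ m, (∑ k, pd m (Pv b (a k) (x k)) w) ^ 2 =
        ∑ k, ∑ l, ∑ m, pd m (Pv b (a k) (x k)) w * pd m (Pv b (a l) (x l)) w := by
      intro w
      have e2 : ∀ m, (∑ k, pd m (Pv b (a k) (x k)) w) ^ 2 =
          ∑ k, ∑ l, pd m (Pv b (a k) (x k)) w * pd m (Pv b (a l) (x l)) w := by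
        intro m
        rw [pow_two, Finset.sum_mul_sum]
      rw [Finset.sum_congr rfl fun m _ => e2 m, Finset.sum_comm]
      refine Finset.sum_congr rfl fun k _ => ?_
      rw [Finset.sum_comm]
    simp_rw [e1]
    rw [integral_finsetSum _ fun k _ => integrable_finsetSum _ fun l _ =>
      die_iint h1 h2 hb (a k) (x k) (a l) (x l)]
    refine Finset.sum_congr rfl fun k _ => ?_
    rw [integral_finsetSum _ fun l _ => die_iint h1 h2 hb (a k) (x k) (a l) (x l)]
    rfl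
  rw [e] at h0
  exact h0

theorem die_young (h1 : ST_PHA) (h2 : ST_PHB) (h3 : ST_PHC) {b : ℝ} (hb : 0 < b) {n : ℕ}
    (a u x : Fin n → R3) :
    2 * ∑ k, ∑ l, Iv b (a k) (x k) (u l) (x l) ≤
      (∑ k, ∑ l, EE b (a k) (x k) (a l) (x l)) +
      2 * (∑ k, ∑ l, EE b (a k) (x k) (u l) (x l)) +
      ∑ k, ∑ l, EE b (u k) (x k) (u l) (x l) := by
  have h := dip_young h1 h2 h3 hb (Fin.append a u) (Fin.append x x)
  simp only [Fin.sum_univ_add, Fin.append_left, Fin.append_right, Finset.sum_add_distrib] at h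
  have e1 : ∑ k, ∑ l, Iv b (u k) (x k) (a l) (x l) = ∑ k, ∑ l, Iv b (a k) (x k) (u l) (x l) := by
    rw [Finset.sum_comm]
    exact Finset.sum_congr rfl fun k _ => Finset.sum_congr rfl fun l _ => Iv_comm _ _ _ _ _
  have e2 : ∑ k, ∑ l, EE b (u k) (x k) (a l) (x l) = ∑ k, ∑ l, EE b (a k) (x k) (u l) (x l) := by
    rw [Finset.sum_comm]
    exact Finset.sum_congr rfl fun k _ => Finset.sum_congr rfl fun l _ => EE_comm _ _ _ _ _
  have p1 := die_pos h1 h2 hb a x
  have p2 := die_pos h1 h2 hb u x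
  linarith

theorem Tq_smul (ξ v w : R3) (t : ℝ) : Tq ξ v (t • w) = t * Tq ξ v w := by
  unfold Tq
  simp only [Fin.sum_univ_three, Pi.smul_apply, smul_eq_mul]
  ring

theorem Tq_symm (ξ v w : R3) : Tq ξ v w = Tq ξ w v := by
  unfold Tq
  simp only [Fin.sum_univ_three]
  ring

theorem Tq_zero (ξ v : R3) : Tq ξ v 0 = 0 := by
  unfold Tq
  simp

theorem Tq_bd {ξ v w : R3} {K r : ℝ} (hr : 0 < r) (hξ : r ≤ nr ξ) (hv : ∀ m, |v m| ≤ 1)
    (hw : ∀ m, |w m| ≤ K) : |Tq ξ v w| ≤ 30 * K / r ^ 3 := by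
  have hK : 0 ≤ K := (abs_nonneg _).trans (hw 0)
  have hp : 0 < nr ξ := hr.trans_le hξ
  have s1 : |∑ m, v m * ξ m| ≤ 3 * nr ξ := by
    refine (Finset.abs_sum_le_sum_abs _ _).trans ?_
    refine (Finset.sum_le_sum fun i _ => (?_ : _ ≤ nr ξ)).trans (le_of_eq ?_)
    · rw [abs_mul]
      calc |v i| * |ξ i| ≤ 1 * nr ξ :=
            mul_le_mul (hv i) (dip_co i ξ) (abs_nonneg _) zero_le_one
        _ = nr ξ := one_mul _
    · simp
  have s2 : |∑ m, w m * ξ m| ≤ 3 * (K * nr ξ) := by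
    refine (Finset.abs_sum_le_sum_abs _ _).trans ?_
    refine (Finset.sum_le_sum fun i _ => (?_ : _ ≤ K * nr ξ)).trans (le_of_eq ?_)
    · rw [abs_mul]
      exact mul_le_mul (hw i) (dip_co i ξ) (abs_nonneg _) hK
    · simp
  have s3 : |∑ m, v m * w m| ≤ 3 * K := by
    refine (Finset.abs_sum_le_sum_abs _ _).trans ?_
    refine (Finset.sum_le_sum fun i _ => (?_ : _ ≤ K)).trans (le_of_eq ?_)
    · rw [abs_mul]
      calc |v i| * |w i| ≤ 1 * K := mul_le_mul (hv i) (hw i) (abs_nonneg _) zero_le_one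
        _ = K := one_mul _
    · simp
  have t1 : |Tq ξ v w| ≤ 30 * K / nr ξ ^ 3 := by
    unfold Tq
    refine (abs_sub _ _).trans ?_
    rw [abs_div, abs_div, abs_mul, abs_mul, abs_of_pos (by norm_num : (0 : ℝ) < 3),
      abs_of_pos (by positivity : 0 < nr ξ ^ 5), abs_of_pos (by positivity : 0 < nr ξ ^ 3)]
    have t2 : 3 * |∑ m, v m * ξ m| * |∑ m, w m * ξ m| / nr ξ ^ 5 ≤ 27 * K / nr ξ ^ 3 := by
      rw [div_le_div_iff₀ (by positivity) (by positivity)]
      have t3 : |∑ m, v m * ξ m| * |∑ m, w m * ξ m| ≤ 3 * nr ξ * (3 * (K * nr ξ)) :=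
        mul_le_mul s1 s2 (abs_nonneg _) (by positivity)
      calc 3 * |∑ m, v m * ξ m| * |∑ m, w m * ξ m| * nr ξ ^ 3 =
            3 * nr ξ ^ 3 * (|∑ m, v m * ξ m| * |∑ m, w m * ξ m|) := by ring
        _ ≤ 3 * nr ξ ^ 3 * (3 * nr ξ * (3 * (K * nr ξ))) :=
            mul_le_mul_of_nonneg_left t3 (by positivity)
        _ = 27 * K * nr ξ ^ 5 := by ring
    have t4 : |∑ m, v m * w m| / nr ξ ^ 3 ≤ 3 * K / nr ξ ^ 3 :=
      div_le_div_of_nonneg_right s3 (by positivity)
    calc _ ≤ 27 * K / nr ξ ^ 3 + 3 * K / nr ξ ^ 3 := add_le_add t2 t4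
      _ = 30 * K / nr ξ ^ 3 := by ring
  refine t1.trans (div_le_div_of_nonneg_left (by positivity) (by positivity) ?_)
  exact pow_le_pow_left₀ hr.le hξ 3

/-- the far pairs -/
theorem die_far (h1 : ST_PHA) (h2 : ST_PHB) (h3 : ST_PHC) (h4 : ST_MVP) {b : ℝ} (hb : 0 < b) :
    ∃ C : ℝ, 0 < C ∧ ∀ (n : ℕ) (x a : Fin n → R3) (e : R3) (K : ℝ), 0 < K → (∀ m, |e m| ≤ 1) →
      (∀ k m, |a k m| ≤ K) →
      |∑ k, ∑ l, (if 2 * b < nr (x k - x l) then Tq (x k - x l) (a k) e else 0)| ≤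
        C * K * ∑ k, ∑ l, (if nr (x k - x l) ≤ 2 * b then (1 : ℝ) else 0) := by
  obtain ⟨C, hC, hnear⟩ := dip_near h1 h2 h3 hb
  have hkap : 0 < kap := h3.2.1
  refine ⟨3 * C / kap, by positivity, fun n x a e K hK he ha => ?_⟩
  set P : ℝ := ∑ k, ∑ l, (if nr (x k - x l) ≤ 2 * b then (1 : ℝ) else 0) with hP
  have hK2 : 0 ≤ K ^ 2 := sq_nonneg _
  have hEE : ∀ v u : Fin n → R3, (∀ k m, |v k m| ≤ K) → (∀ k m, |u k m| ≤ K) →
      ∑ k, ∑ l, EE b (v k) (x k) (u l) (x l) ≤ C * K ^ 2 * P := by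
    intro v u hv hu
    rw [hP, Finset.mul_sum]
    refine Finset.sum_le_sum fun k _ => ?_
    rw [Finset.mul_sum]
    refine Finset.sum_le_sum fun l _ => ?_
    by_cases h : nr (x k - x l) ≤ 2 * b
    · rw [if_pos h, mul_one]
      exact (le_abs_self _).trans (hnear (v k) (x k) (u l) (x l) K (hv k) (hu l)).2
    · rw [if_neg h, mul_zero, EE_far h3 hb _ _ _ _ (not_le.1 h)]
  have key : ∀ t : ℝ, |t| = K → -(kap * (t * ∑ k, ∑ l, (if 2 * b < nr (x k - x l) then
      Tq (x k - x l) (a k) e else 0))) ≤ 3 * C * K ^ 2 * P := by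
    intro t ht
    have hu : ∀ (k : Fin n) m, |(fun _ : Fin n => t • e) k m| ≤ K := by
      intro k m
      simp only [Pi.smul_apply, smul_eq_mul]
      rw [abs_mul, ht]
      calc K * |e m| ≤ K * 1 := mul_le_mul_of_nonneg_left (he m) hK.le
        _ = K := mul_one _
    have hy := die_young h1 h2 h3 hb a (fun _ => t • e) x
    have q1 := hEE a a ha ha
    have q2 := hEE a (fun _ => t • e) ha hu
    have q3 := hEE (fun _ => t • e) (fun _ => t • e) hu hu
    have q4 : -(kap * (t * ∑ k, ∑ l, (if 2 * b < nr (x k - x l) then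
        Tq (x k - x l) (a k) e else 0))) ≤
        (∑ k, ∑ l, Iv b (a k) (x k) ((fun _ : Fin n => t • e) l) (x l)) + C * K ^ 2 * P := by
      rw [hP]
      simp only [Finset.mul_sum, ← Finset.sum_neg_distrib, ← Finset.sum_add_distrib]
      refine Finset.sum_le_sum fun k _ => Finset.sum_le_sum fun l _ => ?_
      by_cases h : nr (x k - x l) ≤ 2 * b
      · rw [if_pos h, if_neg (not_lt.2 h)]
        have := (abs_le.1 (hnear (a k) (x k) (t • e) (x l) K (ha k) (hu l)).1).1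
        simp only [mul_zero, neg_zero, mul_one]
        linarith
      · rw [if_neg h, if_pos (not_le.1 h), dip_pair h4 h1 h2 h3 hb _ _ _ _ (not_le.1 h), Tq_smul]
        simp only [mul_zero, add_zero]
        exact le_rfl
    linarith
  have k1 := key K (abs_of_pos hK)
  have k2 := key (-K) (by rw [abs_neg, abs_of_pos hK])
  set S : ℝ := ∑ k, ∑ l, (if 2 * b < nr (x k - x l) then Tq (x k - x l) (a k) e else 0) with hS
  have k3 : kap * K * |S| ≤ 3 * C * K ^ 2 * P := by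
    rcases abs_cases S with ⟨h, -⟩ | ⟨h, -⟩ <;> rw [h] <;> linarith
  have k4 : kap * |S| ≤ 3 * C * K * P := by
    have : K * (kap * |S|) ≤ K * (3 * C * K * P) := by linarith [k3]
    exact le_of_mul_le_mul_left this hK
  rw [div_mul_eq_mul_div, div_mul_eq_mul_div, le_div_iff₀ hkap]
  linarith

theorem DIE (h1 : ST_PHA) (h2 : ST_PHB) (h3 : ST_PHC) (h4 : ST_MVP) (h5 : ST_PCN) : ST_DIE := by
  intro d hd hd1
  have hb : 0 < d / 128 := by positivity
  obtain ⟨C, hC, hfar⟩ := die_far h1 h2 h3 h4 hb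
  refine ⟨C + 30 / (d / 64) ^ 3, by positivity, fun n M X x e a K hX hD he ha hz => ?_⟩
  rcases Nat.eq_zero_or_pos n with hn | hn
  · subst hn
    simp [cnt, Rem]
  have hK0 : 0 ≤ K := (abs_nonneg _).trans (ha ⟨0, hn⟩ 0)
  have hcn0 : 0 ≤ ∑ i, cnt X (3 / 2 * d) x i ^ 2 := Finset.sum_nonneg fun _ _ => sq_nonneg _
  -- number of near pairs
  have hp := h5 d n M X x hd hD
  have hnr0 : nr (0 : R3) = 0 := by simp [nr]
  have hdiag : (n : ℝ) ≤ ∑ k, ∑ l, (if nr (x k - x l) < d / 32 then (1 : ℝ) else 0) := by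
    calc (n : ℝ) = ∑ _k : Fin n, (1 : ℝ) := by simp
      _ ≤ _ := Finset.sum_le_sum fun k _ => by
        refine le_trans (le_of_eq ?_) (Finset.single_le_sum (f := fun l =>
          if nr (x k - x l) < d / 32 then (1 : ℝ) else 0) (fun l _ => by
            split_ifs <;> norm_num) (Finset.mem_univ k))
        rw [sub_self, hnr0, if_pos (by positivity)]
  have hRem : 0 ≤ Rem (d / 8) x := by
    have : 0 ≤ d / 8 * Rem (d / 8) x := by linarith
    exact nonneg_of_mul_nonneg_right this (by positivity)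
  have hPle : ∑ k, ∑ l, (if nr (x k - x l) ≤ 2 * (d / 128) then (1 : ℝ) else 0) ≤
      n + Rem (d / 8) x := by
    have e1 : ∑ k, ∑ l, (if nr (x k - x l) ≤ 2 * (d / 128) then (1 : ℝ) else 0) ≤
        ∑ k, ∑ l, (if nr (x k - x l) < d / 32 then (1 : ℝ) else 0) :=
      Finset.sum_le_sum fun k _ => Finset.sum_le_sum fun l _ => by
        by_cases h : nr (x k - x l) ≤ 2 * (d / 128)
        · rw [if_pos h, if_pos (by linarith)]
        · rw [if_neg h]
          split_ifs <;> norm_num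
    have e2 : d / 8 * Rem (d / 8) x ≤ Rem (d / 8) x := by nlinarith
    linarith
  rcases hK0.eq_or_lt with hK | hK
  · -- all dipoles vanish
    have ha0 : ∀ k, a k = 0 := fun k => by
      funext m
      have := ha k m
      rw [← hK] at this
      exact abs_nonpos_iff.1 this
    simp only [ha0, Tq_zero, ite_self, Finset.sum_const_zero, abs_zero]
    rw [← hK]
    simp
  have hS := hfar n x a e K hK he ha
  set S : ℝ := ∑ k, ∑ l, (if 2 * (d / 128) < nr (x k - x l) then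
    Tq (x k - x l) (a k) e else 0) with hSdef
  -- the sum over the nuclei
  have hSi : S = ∑ i, ∑ k, (if nr (x k - X i) ≤ d / 2 then
      (∑ l, if 2 * (d / 128) < nr (x k - x l) then Tq (x k - x l) e (a k) else 0) else 0) := by
    rw [hSdef, Finset.sum_comm (s := (Finset.univ : Finset (Fin M)))]
    refine Finset.sum_congr rfl fun k _ => ?_
    by_cases hk : ∀ i, d / 2 < nr (x k - X i)
    · rw [hz k hk]
      simp only [Tq_zero, Tq_symm _ 0 e, ite_self, Finset.sum_const_zero]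
    · push Not at hk
      obtain ⟨i, hi⟩ := hk
      rw [Finset.sum_eq_single i]
      · rw [if_pos hi]
        refine Finset.sum_congr rfl fun l _ => ?_
        rw [Tq_symm]
      · intro j _ hji
        rw [if_neg]
        intro hj
        have s1 := hX i j (Ne.symm hji)
        have s2 := nr_tri (X i) (x k) (X j)
        rw [nr_comm (X i) (x k)] at s2
        linarith
      · intro h
        exact absurd (Finset.mem_univ i) h
  have hdiff : |(∑ i, ∑ k, (if nr (x k - X i) ≤ d / 2 then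
      (∑ l, if nr (x l - X i) < 3 / 2 * d then 0 else Tq (x k - x l) e (a k)) else 0)) - S| ≤
      30 * K / (d / 64) ^ 3 * ∑ i, cnt X (3 / 2 * d) x i ^ 2 := by
    rw [hSi, ← Finset.sum_sub_distrib, Finset.mul_sum]
    refine (Finset.abs_sum_le_sum_abs _ _).trans (Finset.sum_le_sum fun i _ => ?_)
    rw [← Finset.sum_sub_distrib]
    refine (Finset.abs_sum_le_sum_abs _ _).trans ?_
    have e1 : 30 * K / (d / 64) ^ 3 * cnt X (3 / 2 * d) x i ^ 2 = ∑ k, ∑ l,
        30 * K / (d / 64) ^ 3 * ((if nr (x k - X i) < 3 / 2 * d then (1:ℝ) else 0) *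
        (if nr (x l - X i) < 3 / 2 * d then 1 else 0)) := by
      unfold cnt
      rw [pow_two, Finset.sum_mul_sum, Finset.mul_sum]
      exact Finset.sum_congr rfl fun k _ => by rw [Finset.mul_sum]
    rw [e1]
    refine Finset.sum_le_sum fun k _ => ?_
    have hc0 : 0 ≤ 30 * K / (d / 64) ^ 3 := by positivity
    by_cases hk : nr (x k - X i) ≤ d / 2
    · rw [if_pos hk, if_pos hk, ← Finset.sum_sub_distrib]
      refine (Finset.abs_sum_le_sum_abs _ _).trans (Finset.sum_le_sum fun l _ => ?_)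
      rw [if_pos (show nr (x k - X i) < 3 / 2 * d by linarith), one_mul]
      by_cases hl : nr (x l - X i) < 3 / 2 * d
      · rw [if_pos hl, if_pos hl, mul_one, zero_sub, abs_neg]
        split_ifs with hkl
        · refine Tq_bd (r := d / 64) (by positivity) (by linarith) he (ha k)
        · rw [abs_zero]
          exact hc0
      · rw [if_neg hl, if_neg hl, mul_zero, if_pos, sub_self, abs_zero]
        have s2 := nr_tri (x l) (x k) (X i)
        rw [nr_comm (x l) (x k)] at s2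
        linarith
    · rw [if_neg hk, if_neg hk, sub_self, abs_zero]
      refine Finset.sum_nonneg fun l _ => mul_nonneg hc0 ?_
      split_ifs <;> norm_num
  have hS' : |S| ≤ C * K * (n + Rem (d / 8) x) :=
    hS.trans (mul_le_mul_of_nonneg_left hPle (by positivity))
  set L : ℝ := ∑ i, ∑ k, (if nr (x k - X i) ≤ d / 2 then
      (∑ l, if nr (x l - X i) < 3 / 2 * d then 0 else Tq (x k - x l) e (a k)) else 0) with hL
  have hn0 : (0 : ℝ) ≤ n := Nat.cast_nonneg _
  have f1 : |L| ≤ |L - S| + |S| := by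
    have := abs_add_le (L - S) S
    rwa [sub_add_cancel] at this
  have f2 : C * K * (n + Rem (d / 8) x) ≤
      C * K * (∑ i, cnt X (3 / 2 * d) x i ^ 2 + n + Rem (d / 8) x) :=
    mul_le_mul_of_nonneg_left (by linarith) (by positivity)
  have f3 : 30 * K / (d / 64) ^ 3 * ∑ i, cnt X (3 / 2 * d) x i ^ 2 ≤
      30 / (d / 64) ^ 3 * K * (∑ i, cnt X (3 / 2 * d) x i ^ 2 + n + Rem (d / 8) x) := by
    have e1 : 30 * K / (d / 64) ^ 3 = 30 / (d / 64) ^ 3 * K := by ring
    rw [e1]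
    exact mul_le_mul_of_nonneg_left (by linarith) (by positivity)
  calc |L| ≤ _ := f1
    _ ≤ 30 / (d / 64) ^ 3 * K * (∑ i, cnt X (3 / 2 * d) x i ^ 2 + n + Rem (d / 8) x) +
        C * K * (∑ i, cnt X (3 / 2 * d) x i ^ 2 + n + Rem (d / 8) x) :=
        add_le_add (hdiff.trans f3) (hS'.trans f2)
    _ = (C + 30 / (d / 64) ^ 3) * K * (∑ i, cnt X (3 / 2 * d) x i ^ 2 + n + Rem (d / 8) x) := by
        ring

end Pool.Agent.Helper90.HW
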